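import Mathlib
import Pool.Agent.Helper331.Hh

set_option autoImplicit false
open scoped Manifold ContDiff

namespace Pool.Agent.Results.MP_6a9e1f_gt.TightHandle

/-- Euclidean `n`-space. -/
abbrev E (n : ℕ) : Type := EuclideanSpace ℝ (Fin n)

/-- The Veronese map `v(x,y,z) = (x², y², z², √2 xy, √2 yz, √2 zx)`. -/
noncomputable def veronese (x : E 3) : E 6 :=
  !₂[x 0 ^ 2, x 1 ^ 2, x 2 ^ 2, Real.sqrt 2 * (x 0 * x 1), Real.sqrt 2 * (x 1 * x 2),
    Real.sqrt 2 * (x 2 * x 0)]

/-- The unit sphere in Euclidean three-space. -/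
abbrev S2 : Type := Metric.sphere (0 : E 3) 1

/-- Two points of the sphere are equivalent if they are equal or antipodal. -/
def antipodal : Setoid S2 where
  r x y := x = y ∨ x = -y
  iseqv :=
    { refl := fun _ => Or.inl rfl
      symm := by
        rintro x y (h | h)
        · exact Or.inl h.symm
        · exact Or.inr (by rw [h, neg_neg])
      trans := by
        rintro x y z (rfl | rfl) (rfl | rfl)
        · exact Or.inl rfl
        · exact Or.inr rfl
        · exact Or.inr rfl
        · exact Or.inl (neg_neg _) }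

/-- The real projective plane, with the quotient topology. -/
abbrev RP2 : Type := Quotient antipodal

/-- The class of a point of the sphere in the projective plane. -/
def cls (x : S2) : RP2 := Quotient.mk antipodal x

/-- `L : F → G` is the orthogonal projection of `F` onto its linear subspace `K` followed by a
linear isometry of `K` onto `G`. -/
def IsOrthogonalProjection {F G : Type} [NormedAddCommGroup F] [InnerProductSpace ℝ F]
    [NormedAddCommGroup G] [InnerProductSpace ℝ G] (K : Submodule ℝ F) (L : F →L[ℝ] G) : Prop :=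
  (∀ x ∈ Kᗮ, L x = 0) ∧ (∀ x ∈ K, ‖L x‖ = ‖x‖) ∧ Function.Surjective L

/-- `V`, a map on the unit sphere of `A`, is obtained from the map `v : A → F` by an orthogonal
projection onto a linear subspace `K` on which the linear function `n` vanishes, followed by an
isometry of `K` onto `G`; and it is an immersion: the derivative of `x ↦ L (v x)` is injective on
every tangent plane of the unit sphere. -/
def IsImmersiveProjection {A F G : Type} [NormedAddCommGroup A] [InnerProductSpace ℝ A]
    [NormedAddCommGroup F] [InnerProductSpace ℝ F] [NormedAddCommGroup G] [InnerProductSpace ℝ G]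
    (v : A → F) (n : F → ℝ) (V : Metric.sphere (0 : A) 1 → G) : Prop :=
  ∃ (K : Submodule ℝ F) (L : F →L[ℝ] G), (∀ x ∈ K, n x = 0) ∧ IsOrthogonalProjection K L ∧
    (∀ x : Metric.sphere (0 : A) 1, V x = L (v x)) ∧
    ∀ x w : A, ‖x‖ = 1 → inner ℝ x w = 0 → fderiv ℝ (fun y => L (v y)) x w = 0 → w = 0

/-- `V : RP2 → E 4` is a projected Veronese surface (obtained by orthogonal projection): it is
`[x] ↦ L (v x)`, where `L` is the orthogonal projection onto a four-dimensional linear subspace `K`
parallel to the hyperplane `x₀ + x₁ + x₂ = 1` followed by an isometry of `K` onto `E 4`, and it is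
an immersion. -/
def IsProjectedVeronese (V : RP2 → E 4) : Prop :=
  IsImmersiveProjection veronese (fun y => y 0 + y 1 + y 2) (fun x => V (cls x))

/-- The closed unit disc. -/
abbrev Disc : Type := Metric.closedBall (0 : ℂ) 1

/-- The open part of the disc `d` (the image of the open unit disc). -/
def openPart {X : Type} (d : Disc → X) : Set X := {x | ∃ z : Disc, ‖(z : ℂ)‖ < 1 ∧ d z = x}

/-- The boundary circle of the disc `d` (the image of the unit circle). -/
def boundaryPart {X : Type} (d : Disc → X) : Set X := {x | ∃ z : Disc, ‖(z : ℂ)‖ = 1 ∧ d z = x}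

/-- A handle attached to the surface `X`, with result `M`: two disjoint closed discs `d 0`, `d 1`
of `X`; their open parts are removed from `X`, and an annulus `S¹ × [-1, 1]` is glued to the rest
along the two boundary circles. -/
structure Handle (X M : Type) [TopologicalSpace X] [TopologicalSpace M] where
  /-- the two closed discs -/
  d : Fin 2 → Disc → X
  d_emb : ∀ i, Topology.IsEmbedding (d i)
  d_disj : Disjoint (Set.range (d 0)) (Set.range (d 1))
  /-- `X` without the open discs is a subspace of `M` -/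
  ι : {x : X // ∀ i, x ∉ openPart (d i)} → M
  ι_emb : Topology.IsEmbedding ι
  /-- the annulus is a subspace of `M` -/
  j : Circle × Set.Icc (-1 : ℝ) 1 → M
  j_emb : Topology.IsEmbedding j
  /-- together they fill `M` -/
  cover : Set.range ι ∪ Set.range j = Set.univ
  /-- they meet exactly along the two boundary circles of the annulus -/
  inter : Set.range ι ∩ Set.range j = 
    {m | ∃ z, ((z.2 : ℝ) = -1 ∨ (z.2 : ℝ) = 1) ∧ j z = m}
  /-- one boundary circle of the annulus is glued to the boundary of the first disc -/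
  glue₀ : {m | ∃ x, x.1 ∈ boundaryPart (d 0) ∧ ι x = m} = {m | ∃ z, (z.2 : ℝ) = -1 ∧ j z = m}
  /-- the other one is glued to the boundary of the second disc -/
  glue₁ : {m | ∃ x, x.1 ∈ boundaryPart (d 1) ∧ ι x = m} = {m | ∃ z, (z.2 : ℝ) = 1 ∧ j z = m}

/-- `δ` is a smooth immersion of the open disc of radius `r` into the unit sphere of `A`. -/
def ImmersesDisc {A : Type} [NormedAddCommGroup A] [NormedSpace ℝ A] (r : ℝ) (δ : ℂ → A) : Prop :=
  ∀ z : ℂ, ‖z‖ < r → ‖δ z‖ = 1 ∧ ContDiffAt ℝ ∞ δ z ∧ ∀ v, fderiv ℝ δ z v = 0 → v = 0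

/-- The closed disc `d` of the projective plane is smoothly embedded: it lifts to a smooth
immersion into the sphere, defined on a larger open disc. -/
def SmoothDisc (d : Disc → RP2) : Prop :=
  ∃ (r : ℝ) (δ : ℂ → E 3), 1 < r ∧ ImmersesDisc r δ ∧
    ∀ (z : Disc) (x : S2), (x : E 3) = δ z → d z = cls x

/-- `M`, modelled on the normed space `F`, is a closed connected smooth manifold. -/
def IsClosedManifold (F M : Type) [NormedAddCommGroup F] [NormedSpace ℝ F] [TopologicalSpace M]
    [ChartedSpace F M] : Prop :=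
  IsManifold 𝓘(ℝ, F) ∞ M ∧ CompactSpace M ∧ ConnectedSpace M ∧ T2Space M

/-- `f` is a smooth immersion of the manifold `M`, modelled on the normed space `F`, into the
normed space `G`. -/
def SmoothImmersion {F G M : Type} [NormedAddCommGroup F] [NormedSpace ℝ F]
    [NormedAddCommGroup G] [NormedSpace ℝ G] [TopologicalSpace M] [ChartedSpace F M]
    (f : M → G) : Prop :=
  ContMDiff 𝓘(ℝ, F) 𝓘(ℝ, G) ∞ f ∧ ∀ x : M, Function.Injective (mfderiv 𝓘(ℝ, F) 𝓘(ℝ, G) f x)

/-- `f` is tight: the preimage of every open half-space is connected (or empty). -/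
def Tight {G M : Type} [NormedAddCommGroup G] [InnerProductSpace ℝ G] [TopologicalSpace M]
    (f : M → G) : Prop :=
  ∀ (u : G) (c : ℝ), IsPreconnected (f ⁻¹' {y : G | c < inner ℝ u y})

/-- A handle can be attached to `X`, along two disjoint closed discs satisfying `P`, in such a way
that the result is a closed connected smooth manifold `M` modelled on `F`, and that the map
`V : X → G`, restricted to `X` without the open discs, extends to a smooth tight immersion
`f : M → G`. -/
def HasTightHandle {X G : Type} (F : Type) [TopologicalSpace X] [NormedAddCommGroup F]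
    [NormedSpace ℝ F] [NormedAddCommGroup G] [InnerProductSpace ℝ G] (P : (Disc → X) → Prop)
    (V : X → G) : Prop :=
  ∃ (M : Type) (_ : TopologicalSpace M) (_ : ChartedSpace F M) (h : Handle X M) (f : M → G),
    (∀ i, P (h.d i)) ∧ IsClosedManifold F M ∧ (∀ x, f (h.ι x) = V x) ∧
      SmoothImmersion (F := F) f ∧ Tight f

open Pool.Agent.Helper331 Pool.Agent.Helper331.HD in
/-- There are a projected Veronese surface `V : RP2 → E 4` and a handle attached to it (along
smoothly embedded closed discs), such that the resulting closed surface `M` carries a smooth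
structure and a smooth tight immersion `f : M → E 4` which equals `V` outside the handle. -/
theorem result : ∃ V : RP2 → E 4, IsProjectedVeronese V ∧ HasTightHandle (E 2) SmoothDisc V := by
  obtain ⟨H⟩ := exists_HD
  -- the projected Veronese surface
  have hneg : ∀ (x : S2), ((-x : S2) : E 3) = -(x : E 3) := fun x => rfl
  have hS : ∀ x : S2, ‖(x : E 3)‖ = 1 := fun x => by
    have := x.2
    rwa [mem_sphere_zero_iff_norm] at this
  let scR : RP2 → ℂ × ℂ := Quotient.lift (fun x : S2 => H.sc x) (by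
    rintro x y (h | h)
    · rw [h]
    · rw [h, hneg, H.sc_neg])
  have scR_cls : ∀ x : S2, scR (cls x) = H.sc x := fun x => rfl
  have scR_cont : Continuous scR :=
    Continuous.quotient_lift (H.sc_continuous.comp continuous_subtype_val) _
  have scR_inj : Function.Injective scR := by
    intro a b
    induction a using Quotient.inductionOn with | _ x => ?_
    induction b using Quotient.inductionOn with | _ y => ?_
    intro h
    apply Quotient.sound
    rcases H.sc_inj (hS x) (hS y) h with h1 | h1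
    · exact Or.inl (Subtype.ext h1)
    · exact Or.inr (Subtype.ext h1)
  have t2RP : T2Space RP2 := T2Space.of_injective_continuous scR_inj scR_cont
  have cls_surj : ∀ a : RP2, ∃ x : S2, cls x = a := fun a => Quotient.exists_rep a
  have cls_cont : Continuous cls := continuous_quotient_mk'
  let V : RP2 → E 4 := fun a => H.FF (scR a, 0)
  have hver : ∀ x : E 3, veronese x = ver x := fun x => rfl
  have V_cls : ∀ x : S2, V (cls x) = LL (veronese x) := fun x => H.FF_sc x
  refine ⟨V, ⟨KS, LL, fun x hx => KS_hyper hx, ⟨fun x hx => LL_perp hx, fun x hx => LL_isom hx,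
    LL_surj⟩, V_cls, fun x w hx hw h => LL_ver_imm hx hw h⟩, ?_⟩
  obtain ⟨hC, hM, hsm, himm⟩ := H.final_manifold
  have hcomp : CompactSpace H.M := isCompact_iff_compactSpace.1 H.M_compact
  have hconn : ConnectedSpace H.M :=
    { toPreconnectedSpace := isPreconnected_iff_preconnectedSpace.1 H.M_preconnected
      toNonempty := H.M_nonempty.to_subtype }
  -- the discs
  let σ : Fin 2 → ℝ := ![1, -1]
  have hσ : ∀ i, |σ i| = 1 := by
    intro i
    fin_cases i <;> simp [σ]
  have hu : ∀ z : Disc, ‖(z : ℂ)‖ < 2 := fun z => by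
    have := z.2
    rw [mem_closedBall_zero_iff] at this
    linarith
  let pt : (i : Fin 2) → Disc → S2 := fun i z =>
    ⟨H.dd (σ i) z, by rw [mem_sphere_zero_iff_norm]; exact H.dd_norm (hσ i) (hu z)⟩
  let d : Fin 2 → Disc → RP2 := fun i z => cls (pt i z)
  have scR_d : ∀ i z, scR (d i z) = ((σ i : ℂ) * (1 + (z : ℂ) / 2),
      Fp H.p ((σ i : ℂ) * (1 + (z : ℂ) / 2))) := fun i z => sc_dd (H := H)
  have hσc : ∀ i, (σ i : ℂ) ≠ 0 := by
    intro i h0
    have h1 : σ i = 0 := by exact_mod_cast h0
    have := hσ i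
    rw [h1, abs_zero] at this
    norm_num at this
  have d_cont : ∀ i, Continuous (d i) := by
    intro i
    apply cls_cont.comp
    apply Continuous.subtype_mk
    rw [continuous_iff_continuousAt]
    intro z
    exact (H.dd_contDiffAt (hσ i) (hu z)).continuousAt.comp continuous_subtype_val.continuousAt
  have d_inj : ∀ i, Function.Injective (d i) := by
    intro i z w h
    have h1 : scR (d i z) = scR (d i w) := by rw [h]
    rw [scR_d, scR_d] at h1
    have h2 := mul_left_cancel₀ (hσc i) (congrArg Prod.fst h1)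
    apply Subtype.ext
    linear_combination 2 * h2
  have d_emb : ∀ i, Topology.IsEmbedding (d i) := fun i =>
    ((d_cont i).isClosedEmbedding (d_inj i)).isEmbedding
  have dnorm : ∀ z : Disc, ‖(z : ℂ)‖ ≤ 1 := fun z => mem_closedBall_zero_iff.1 z.2
  have d_disj : Disjoint (Set.range (d 0)) (Set.range (d 1)) := by
    rw [Set.disjoint_left]
    rintro _ ⟨z, rfl⟩ ⟨w, hw⟩
    have h1 : scR (d 1 w) = scR (d 0 z) := by rw [hw]
    rw [scR_d, scR_d] at h1
    have h2 := congrArg Prod.fst h1
    simp only [σ, Matrix.cons_val_zero, Matrix.cons_val_one] at h2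
    push_cast at h2
    have h3 : (z : ℂ) + w = -4 := by linear_combination (-2) * h2
    have h4 := norm_add_le (z : ℂ) w
    rw [h3, norm_neg, Complex.norm_ofNat] at h4
    linarith [dnorm z, dnorm w]
  -- the complement of the open discs
  have hR : ∀ a : RP2, (∀ i, a ∉ openPart (d i)) ↔ scR a ∉ H.Dop := by
    intro a
    obtain ⟨x, rfl⟩ := cls_surj a
    rw [scR_cls, H.Dop_iff (hS x)]
    constructor
    · rintro h ⟨s, hs, u, hu1, hx⟩
      have hs' : ∃ i, σ i = s := by
        rcases (abs_eq (by norm_num : (0:ℝ) ≤ 1)).1 hs with h1 | h1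
        · exact ⟨0, by simp [σ, h1]⟩
        · exact ⟨1, by simp [σ, h1]⟩
      obtain ⟨i, rfl⟩ := hs'
      apply h i
      refine ⟨⟨u, by rw [mem_closedBall_zero_iff]; exact hu1.le⟩, hu1, ?_⟩
      apply Quotient.sound
      rcases hx with hx | hx
      · exact Or.inl (Subtype.ext hx.symm)
      · refine Or.inr (Subtype.ext ?_)
        change H.dd (σ i) u = -(x : E 3)
        rw [hx, neg_neg]
    · rintro h i ⟨z, hz, hzx⟩
      apply h
      refine ⟨σ i, hσ i, z, hz, ?_⟩
      have h1 : scR (d i z) = scR (cls x) := by rw [hzx]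
      have h2 : H.sc (H.dd (σ i) z) = H.sc x := h1
      exact H.sc_inj (hS x) (H.dd_norm (hσ i) (hu z)) h2.symm
  have hRm : ∀ a : RP2, (∀ i, a ∉ openPart (d i)) → ((scR a, 0) : AX) ∈ H.M := by
    intro a ha
    obtain ⟨x, rfl⟩ := cls_surj a
    left
    rw [H.MV_mem_iff]
    exact ⟨x, hS x, (hR _).1 ha, rfl⟩
  have hRc : IsCompact {a : RP2 | ∀ i, a ∉ openPart (d i)} := by
    have e : {a : RP2 | ∀ i, a ∉ openPart (d i)} = scR ⁻¹' H.Dopᶜ := by
      ext a; exact hR a
    rw [e]
    exact (H.Dop_open.isClosed_compl.preimage scR_cont).isCompact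
  have hRcs : CompactSpace {a : RP2 // ∀ i, a ∉ openPart (d i)} := isCompact_iff_compactSpace.1 hRc
  let ι : {a : RP2 // ∀ i, a ∉ openPart (d i)} → H.M := fun a => ⟨(scR a.1, 0), hRm a.1 a.2⟩
  have ι_cont : Continuous ι := by
    apply Continuous.subtype_mk
    exact (scR_cont.comp continuous_subtype_val).prodMk continuous_const
  have ι_inj : Function.Injective ι := by
    intro a b h
    apply Subtype.ext
    apply scR_inj
    exact congrArg (fun m : H.M => (m : AX).1) h
  have ι_emb : Topology.IsEmbedding ι := (ι_cont.isClosedEmbedding ι_inj).isEmbedding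
  let j : Circle × Set.Icc (-1 : ℝ) 1 → H.M := fun z => ⟨H.jj z, H.jj_mem z⟩
  have j_cont : Continuous j := H.jj_continuous.subtype_mk _
  have j_inj : Function.Injective j := by
    intro z w h
    exact H.jj_injective (congrArg (fun m : H.M => (m : AX)) h)
  have j_emb : Topology.IsEmbedding j := (j_cont.isClosedEmbedding j_inj).isEmbedding
  have cover : Set.range ι ∪ Set.range j = Set.univ := by
    apply Set.eq_univ_of_forall
    rintro ⟨m, hm | hm⟩
    · left
      obtain ⟨x, hx, h1, h2⟩ := H.MV_mem_iff.1 hm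
      let x' : S2 := ⟨x, by rw [mem_sphere_zero_iff_norm]; exact hx⟩
      exact ⟨⟨cls x', (hR _).2 h1⟩, Subtype.ext h2⟩
    · right
      rw [H.MA_eq] at hm
      obtain ⟨z, hz⟩ := hm
      exact ⟨z, Subtype.ext hz⟩
  -- a boundary point of a disc is outside the open discs
  have bd : ∀ i (z : Disc), ‖(z : ℂ)‖ = 1 → ∀ k, d i z ∉ openPart (d k) := by
    rintro i z hz k ⟨w, hw, h⟩
    by_cases hik : k = i
    · subst hik
      have := d_inj _ h
      rw [this] at hw
      linarith
    · have : d i z ∈ Set.range (d i) := ⟨z, rfl⟩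
      have h2 : d i z ∈ Set.range (d k) := ⟨w, h⟩
      have hd : Disjoint (Set.range (d i)) (Set.range (d k)) := by
        fin_cases i <;> fin_cases k
        · exact absurd rfl hik
        · exact d_disj
        · exact d_disj.symm
        · exact absurd rfl hik
      exact Set.disjoint_left.1 hd this h2
  have l1 : (-1:ℝ) ∈ Set.Icc (-1:ℝ) 1 := by constructor <;> norm_num
  have r1 : (1:ℝ) ∈ Set.Icc (-1:ℝ) 1 := by constructor <;> norm_num
  have hcd : ∀ ζ : Circle, (ζ : ℂ) ∈ Metric.closedBall (0:ℂ) 1 := fun ζ => by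
    rw [mem_closedBall_zero_iff, Circle.norm_coe]
  have jl : ∀ ζ : Circle, j (ζ, ⟨-1, l1⟩) = ι ⟨d 0 ⟨ζ, hcd ζ⟩, bd 0 _ (Circle.norm_coe ζ)⟩ := by
    intro ζ
    apply Subtype.ext
    exact H.jj_left ζ l1
  have jr : ∀ ζ : Circle, j (ζ, ⟨1, r1⟩)
      = ι ⟨d 1 ⟨(ζ⁻¹ : Circle), hcd _⟩, bd 1 _ (Circle.norm_coe _)⟩ := by
    intro ζ
    apply Subtype.ext
    exact H.jj_right ζ r1
  have mkC : ∀ z : Disc, ‖(z : ℂ)‖ = 1 → ∃ ζ : Circle, (ζ : ℂ) = z := fun z hz =>
    ⟨⟨z, mem_sphere_zero_iff_norm.2 hz⟩, rfl⟩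
  have inter : Set.range ι ∩ Set.range j =
      {m | ∃ z, ((z.2 : ℝ) = -1 ∨ (z.2 : ℝ) = 1) ∧ j z = m} := by
    ext m
    constructor
    · rintro ⟨⟨a, ha⟩, ⟨z, hz⟩⟩
      refine ⟨z, ?_, hz⟩
      obtain ⟨x, hx⟩ := cls_surj a.1
      apply H.bdry (x := x)
      have h1 : ((scR a.1, 0) : AX) = H.jj z := congrArg (fun m : H.M => (m : AX)) (ha.trans hz.symm)
      rw [← hx] at h1
      exact h1
    · rintro ⟨⟨ζ, r⟩, hr, rfl⟩
      refine ⟨?_, ⟨_, rfl⟩⟩
      rcases hr with hr | hr
      · have : r = ⟨-1, l1⟩ := Subtype.ext hr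
        rw [this, jl]; exact ⟨_, rfl⟩
      · have : r = ⟨1, r1⟩ := Subtype.ext hr
        rw [this, jr]; exact ⟨_, rfl⟩
  have glue₀ : {m | ∃ x, x.1 ∈ boundaryPart (d 0) ∧ ι x = m}
      = {m | ∃ z, (z.2 : ℝ) = -1 ∧ j z = m} := by
    ext m
    constructor
    · rintro ⟨x, ⟨z, hz, hzx⟩, rfl⟩
      obtain ⟨ζ, hζ⟩ := mkC z hz
      refine ⟨(ζ, ⟨-1, l1⟩), rfl, ?_⟩
      rw [jl]
      congr 1
      apply Subtype.ext
      rw [← hzx]
      exact congrArg (d 0) (Subtype.ext hζ)
    · rintro ⟨⟨ζ, r⟩, hr, rfl⟩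
      have : r = ⟨-1, l1⟩ := Subtype.ext hr
      rw [this, jl]
      exact ⟨_, ⟨_, Circle.norm_coe ζ, rfl⟩, rfl⟩
  have glue₁ : {m | ∃ x, x.1 ∈ boundaryPart (d 1) ∧ ι x = m}
      = {m | ∃ z, (z.2 : ℝ) = 1 ∧ j z = m} := by
    ext m
    constructor
    · rintro ⟨x, ⟨z, hz, hzx⟩, rfl⟩
      obtain ⟨ζ, hζ⟩ := mkC z hz
      refine ⟨(ζ⁻¹, ⟨1, r1⟩), rfl, ?_⟩
      rw [jr]
      congr 1
      apply Subtype.ext
      rw [← hzx]
      refine congrArg (d 1) (Subtype.ext ?_)
      change ((ζ⁻¹⁻¹ : Circle) : ℂ) = z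
      rw [inv_inv]; exact hζ
    · rintro ⟨⟨ζ, r⟩, hr, rfl⟩
      have : r = ⟨1, r1⟩ := Subtype.ext hr
      rw [this, jr]
      exact ⟨_, ⟨_, Circle.norm_coe _, rfl⟩, rfl⟩
  refine ⟨H.M, inferInstance, hC,
    { d := d, d_emb := d_emb, d_disj := d_disj, ι := ι, ι_emb := ι_emb, j := j, j_emb := j_emb,
      cover := cover, inter := inter, glue₀ := glue₀, glue₁ := glue₁ },
    fun m => H.FF m, ?_, ⟨hM, hcomp, hconn, inferInstance⟩, fun x => rfl, ⟨hsm, himm⟩,
    fun u c => H.final_tight u c⟩
  intro i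
  refine ⟨2, H.dd (σ i), by norm_num, ?_, ?_⟩
  · intro z hz'
    exact ⟨H.dd_norm (hσ i) hz', H.dd_contDiffAt (hσ i) hz', fun v hv => H.dd_imm (hσ i) hz' hv⟩
  · intro z x hx
    change cls (pt i z) = cls x
    congr 1
    exact Subtype.ext hx.symm

end Pool.Agent.Results.MP_6a9e1f_gt.TightHandle
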